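import Pool.Agent.H41.Circ.Basic

/-!
Decompositions into few circuits.
-/

set_option autoImplicit false

namespace Pool.Agent.H41.Circ

open Finset

variable {V : Type*} [AddCommGroup V] [Module (ZMod 2) V] [DecidableEq V]

/-- `M` is the disjoint union of `k` circuits. -/
def Dec (M : Finset V) (k : ℕ) : Prop :=
  ∃ P : Finset (Finset V), P.card = k ∧ (∀ C ∈ P, IsCircuit C) ∧
    (P : Set (Finset V)).PairwiseDisjoint id ∧ P.biUnion id = M

omit [Module (ZMod 2) V] in
theorem dec_empty : Dec (∅ : Finset V) 0 := ⟨∅, rfl, by simp, by simp, by simp⟩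

omit [Module (ZMod 2) V] in
theorem dec_union {C M : Finset V} {k : ℕ} (hC : IsCircuit C) (hd : Disjoint C M) (h : Dec M k) :
    Dec (C ∪ M) (k + 1) := by
  obtain ⟨P, hP, hPc, hPd, hPu⟩ := h
  have hCP : C ∉ P := by
    intro hmem
    have h1 : C ⊆ M := by
      rw [← hPu]; exact Finset.subset_biUnion_of_mem id hmem
    have h2 : C = ∅ := by
      have := Finset.disjoint_of_subset_right h1 hd
      exact Finset.disjoint_self_iff_empty _ |>.mp this
    exact hC.1.ne_empty h2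
  refine ⟨insert C P, by rw [Finset.card_insert_of_notMem hCP, hP], ?_, ?_, ?_⟩
  · intro D hD
    rcases Finset.mem_insert.mp hD with rfl | hD
    · exact hC
    · exact hPc D hD
  · rw [Finset.coe_insert]
    refine hPd.insert fun D hD _ => ?_
    refine Finset.disjoint_of_subset_right ?_ hd
    rw [← hPu]; exact Finset.subset_biUnion_of_mem id hD
  · rw [Finset.biUnion_insert, hPu]; rfl

omit [Module (ZMod 2) V] in
theorem exists_min_circuit {M : Finset V} (hne : M.Nonempty) (h0 : ∑ v ∈ M, v = 0) :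
    ∃ C ⊆ M, IsCircuit C := by
  classical
  obtain ⟨C, hC, hmin⟩ := Finset.exists_min_image
    (M.powerset.filter fun D => D.Nonempty ∧ ∑ v ∈ D, v = 0) Finset.card
    ⟨M, by simp [hne, h0]⟩
  simp only [Finset.mem_filter, Finset.mem_powerset] at hC hmin
  refine ⟨C, hC.1, hC.2.1, hC.2.2, fun D hD hDne hD0 => ?_⟩
  exact Finset.eq_of_subset_of_card_le hD (hmin D ⟨hD.trans hC.1, hDne, hD0⟩)

theorem three_le_card {C : Finset V} (hC : IsCircuit C) (h0 : (0 : V) ∉ C) : 3 ≤ C.card := by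
  by_contra hlt
  push Not at hlt
  have h1 := hC.1.card_pos
  have h2 : C.card = 1 ∨ C.card = 2 := by omega
  rcases h2 with h2 | h2
  · obtain ⟨v, rfl⟩ := Finset.card_eq_one.mp h2
    have h3 := hC.2.1
    rw [Finset.sum_singleton] at h3
    rw [h3] at h0
    simp at h0
  · obtain ⟨v, w, hvw, rfl⟩ := Finset.card_eq_two.mp h2
    have h3 := hC.2.1
    rw [Finset.sum_pair hvw] at h3
    exact hvw (eq_of_add_eq_zero' h3)

omit [Module (ZMod 2) V] in
theorem sum_sdiff_zero {C M : Finset V} (hCM : C ⊆ M) (hC : ∑ v ∈ C, v = 0)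
    (hM : ∑ v ∈ M, v = 0) : ∑ v ∈ M \ C, v = 0 := by
  have h := Finset.sum_sdiff (f := fun v : V => v) hCM
  rw [hC, hM, add_zero] at h
  exact h

/-- The trivial bound. -/
theorem dec_trivial : ∀ (m : ℕ) (M : Finset V), M.card = m → (0 : V) ∉ M → ∑ v ∈ M, v = 0 →
    ∃ k, Dec M k ∧ 3 * k ≤ M.card := by
  intro m
  induction m using Nat.strong_induction_on with
  | _ m ih =>
    intro M hm h0 hs
    rcases Finset.eq_empty_or_nonempty M with rfl | hne
    · exact ⟨0, dec_empty, by simp⟩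
    obtain ⟨C, hCM, hC⟩ := exists_min_circuit hne hs
    have h3 := three_le_card hC fun h => h0 (hCM h)
    have hcard := Finset.card_sdiff_add_card_eq_card hCM
    obtain ⟨k, hk, hk3⟩ := ih (M \ C).card (by omega) (M \ C) rfl
      (fun h => h0 (Finset.mem_sdiff.mp h).1) (sum_sdiff_zero hCM hC.2.1 hs)
    refine ⟨k + 1, ?_, by omega⟩
    have h4 := dec_union hC Finset.disjoint_sdiff hk
    rwa [Finset.union_sdiff_of_subset hCM] at h4

/-- One phase: remove circuits of a fixed even size. -/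
theorem phase {U : Finset V} {h r m : ℕ} (hh : 2 ≤ h) (hUc : U.card ≤ 2 ^ r)
    (hU0 : (0 : V) ∈ U) (hUa : ∀ x ∈ U, ∀ y ∈ U, x + y ∈ U) (hm : 2 ^ (h + h + r) < m ^ 2) :
    ∀ (c : ℕ) (M : Finset V), M.card = c → M ⊆ U → ∑ v ∈ M, v = 0 →
      ∃ M' ⊆ M, ∑ v ∈ M', v = 0 ∧ M'.card < m ∧
        ∃ j, j * (h + h) + M'.card = M.card ∧ ∀ k, Dec M' k → Dec M (k + j) := by
  intro c
  induction c using Nat.strong_induction_on with
  | _ c ih =>
    intro M hc hMU hs
    by_cases hlt : M.card < m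
    · exact ⟨M, Finset.Subset.refl _, hs, hlt, 0, by simp, fun k hk => hk⟩
    push Not at hlt
    obtain ⟨C, hCM, hC, hCc⟩ := exists_circuit (M := M) (U := U) hh hUc
      (fun v hv => Finset.sum_induction _ (· ∈ U) (fun a b ha hb => hUa a ha b hb) hU0
        fun i _ => hMU (Fintype.mem_piFinset.mp hv i))
      (lt_of_lt_of_le hm (Nat.pow_le_pow_left hlt 2))
    have hcard := Finset.card_sdiff_add_card_eq_card hCM
    obtain ⟨M', hM', hs', hlt', j, hj, hdec⟩ := ih (M \ C).card (by omega) (M \ C) rfl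
      (Finset.sdiff_subset.trans hMU) (sum_sdiff_zero hCM hC.2.1 hs)
    refine ⟨M', hM'.trans Finset.sdiff_subset, hs', hlt', j + 1, by rw [add_mul]; omega,
      fun k hk => ?_⟩
    have h4 := dec_union hC Finset.disjoint_sdiff (hdec k hk)
    rw [Finset.union_sdiff_of_subset hCM] at h4
    rw [← add_assoc]; exact h4

/-- The recursion over dyadic scales. -/
theorem bound_aux {U : Finset V} {r T : ℕ} (hr : 24 ≤ r) (hT : 4 * T ≤ r)
    (hUc : U.card ≤ 2 ^ r) (hU0 : (0 : V) ∈ U) (hUa : ∀ x ∈ U, ∀ y ∈ U, x + y ∈ U) :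
    ∀ (s t : ℕ), t + s = T → ∀ M : Finset V, M ⊆ U → (0 : V) ∉ M → ∑ v ∈ M, v = 0 →
      M.card < 2 ^ (r - t) → ∃ k, Dec M k ∧ (k : ℝ) ≤ M.card / ((r : ℝ) - 2 * t - 4) +
        (2 ^ (r - T) / 3 + 18 / (r : ℝ) ^ 2 * (2 ^ (r - t) - 2 ^ (r - T))) := by
  have hr' : (24 : ℝ) ≤ r := by exact_mod_cast hr
  have hT' : 4 * (T : ℝ) ≤ r := by exact_mod_cast hT
  intro s
  induction s with
  | zero =>
    intro t ht M hMU h0 hs hlt
    rw [add_zero] at ht
    subst ht
    obtain ⟨k, hk, hk3⟩ := dec_trivial M.card M rfl h0 hs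
    refine ⟨k, hk, ?_⟩
    have h1 : 3 * (k : ℝ) ≤ M.card := by exact_mod_cast hk3
    have h2 : (M.card : ℝ) ≤ 2 ^ (r - t) := by exact_mod_cast hlt.le
    have h3 : (0 : ℝ) ≤ M.card / ((r : ℝ) - 2 * t - 4) :=
      div_nonneg (Nat.cast_nonneg _) (by linarith)
    rw [sub_self, mul_zero, add_zero]
    linarith
  | succ s ih =>
    intro t ht M hMU h0 hs hlt
    have htT : t + 1 ≤ T := by omega
    have htT' : (t : ℝ) + 1 ≤ T := by exact_mod_cast htT
    set h := (r - 2 * t - 3) / 2 with hh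
    have hh1 : h + h ≤ r - 2 * t - 3 := by omega
    have hh2 : r - 2 * t - 4 ≤ h + h := by omega
    obtain ⟨M', hM', hs', hlt', j, hj, hdec⟩ := phase (U := U) (h := h) (r := r)
      (m := 2 ^ (r - (t + 1))) (by omega) hUc hU0 hUa
      (by rw [← pow_mul]; exact Nat.pow_lt_pow_right (by norm_num) (by omega))
      M.card M rfl hMU hs
    obtain ⟨k, hk, hkb⟩ := ih (t + 1) (by omega) M' (hM'.trans hMU) (fun h => h0 (hM' h)) hs'
      hlt'
    refine ⟨k + j, hdec k hk, ?_⟩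
    have hl : (r : ℝ) / 3 ≤ (r : ℝ) - 2 * t - 4 := by linarith
    have hl' : (r : ℝ) / 3 ≤ (r : ℝ) - 2 * ((t + 1 : ℕ) : ℝ) - 4 := by push_cast; linarith
    set l : ℝ := (r : ℝ) - 2 * t - 4 with hldef
    have hleq : (r : ℝ) - 2 * ((t + 1 : ℕ) : ℝ) - 4 = l - 2 := by rw [hldef]; push_cast; ring
    rw [hleq] at hkb hl'
    have hlpos : 0 < l := by linarith
    have hlpos' : 0 < l - 2 := by linarith
    have hlh : l ≤ ((h + h : ℕ) : ℝ) := by
      have h1 : ((r - 2 * t - 4 : ℕ) : ℝ) ≤ ((h + h : ℕ) : ℝ) := by exact_mod_cast hh2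
      rw [Nat.cast_sub (by omega), Nat.cast_sub (by omega)] at h1
      push_cast at h1 ⊢
      rw [hldef]; linarith
    have hj' : (j : ℝ) * ((h + h : ℕ) : ℝ) + M'.card = M.card := by exact_mod_cast hj
    have hjl : (j : ℝ) ≤ (M.card - M'.card) / l := by
      rw [le_div_iff₀ hlpos]
      have : (j : ℝ) * l ≤ (j : ℝ) * ((h + h : ℕ) : ℝ) :=
        mul_le_mul_of_nonneg_left hlh (Nat.cast_nonneg _)
      linarith
    have hb : (M'.card : ℝ) ≤ 2 ^ (r - (t + 1)) := by exact_mod_cast hlt'.le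
    have hpow : (2 : ℝ) ^ (r - t) = 2 * 2 ^ (r - (t + 1)) := by
      rw [← pow_succ']; congr 1; omega
    have hfrac : 1 / (l - 2) - 1 / l ≤ 18 / (r : ℝ) ^ 2 := by
      have h1 : 1 / (l - 2) - 1 / l = 2 / ((l - 2) * l) := by
        field_simp; ring
      rw [h1, div_le_div_iff₀ (by positivity) (by positivity)]
      have h2 : (r : ℝ) / 3 * ((r : ℝ) / 3) ≤ (l - 2) * l :=
        mul_le_mul hl' hl (by linarith) hlpos'.le
      nlinarith
    have hfin : (M'.card : ℝ) * (1 / (l - 2) - 1 / l) ≤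
        18 / (r : ℝ) ^ 2 * 2 ^ (r - (t + 1)) := by
      rw [mul_comm]
      refine mul_le_mul hfrac hb (Nat.cast_nonneg _) (by positivity)
    have e1 : (M'.card : ℝ) / (l - 2) = M'.card * (1 / (l - 2) - 1 / l) + M'.card / l := by ring
    have e2 : (M.card - M'.card : ℝ) / l = M.card / l - M'.card / l := by ring
    rw [e1] at hkb
    rw [e2] at hjl
    rw [hpow]
    push_cast
    linarith

end Pool.Agent.H41.Circ
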