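import Mathlib

/-!
Circuits of binary matroids: long circuits by counting zero-sum tuples.
-/

set_option autoImplicit false

namespace Pool.Agent.H41.Circ

open Finset

variable {V : Type*} [AddCommGroup V] [Module (ZMod 2) V] [DecidableEq V]

/-- Circuits: nonempty minimal zero-sum sets. -/
def IsCircuit (C : Finset V) : Prop :=
  C.Nonempty ∧ ∑ v ∈ C, v = 0 ∧ ∀ D ⊆ C, D.Nonempty → ∑ v ∈ D, v = 0 → D = C

omit [DecidableEq V] in
theorem add_self' (v : V) : v + v = 0 := by
  have h : (2 : ZMod 2) • v = 0 := by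
    have : (2 : ZMod 2) = 0 := by decide
    rw [this, zero_smul]
  rwa [two_smul] at h

omit [DecidableEq V] in
theorem eq_of_add_eq_zero' {v w : V} (h : v + w = 0) : v = w := by
  have h1 := add_self' w
  have : v = -w := eq_neg_of_add_eq_zero_left h
  rw [this]; exact (eq_neg_of_add_eq_zero_left h1).symm

/-- Tuples in `M`. -/
abbrev tup (M : Finset V) (L : ℕ) : Finset (Fin L → V) := Fintype.piFinset fun _ => M

/-- Number of zero-sum `2h`-tuples. -/
theorem card_zero_tuples {M U : Finset V} (h : ℕ)
    (hU : ∀ v : Fin h → V, v ∈ tup M h → ∑ i, v i ∈ U) :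
    M.card ^ (h + h) ≤ U.card *
      ((tup M (h + h)).filter fun v => ∑ i, v i = 0).card := by
  classical
  set f : V → ℕ := fun x => ((tup M h).filter fun v => ∑ i, v i = x).card with hf
  have h1 : ∑ x ∈ U, f x = M.card ^ h := by
    have h2 := Finset.card_eq_sum_card_fiberwise (s := tup M h) (t := U)
      (f := fun v => ∑ i, v i) (fun v hv => hU v hv)
    rw [Fintype.card_piFinset] at h2
    simpa using h2.symm
  have h3 : (∑ x ∈ U, f x) ^ 2 ≤ U.card * ∑ x ∈ U, f x ^ 2 := sq_sum_le_card_mul_sum_sq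
  have h4 : ∑ x ∈ U, f x ^ 2 ≤ ((tup M (h + h)).filter fun v => ∑ i, v i = 0).card := by
    -- pairs with equal sums
    have h5 : ∑ x ∈ U, f x ^ 2 ≤
        (((tup M h) ×ˢ (tup M h)).filter fun z => ∑ i, z.1 i = ∑ i, z.2 i).card := by
      rw [Finset.card_eq_sum_card_fiberwise (t := U) (f := fun z => ∑ i, z.1 i)]
      · refine Finset.sum_le_sum fun x hx => ?_
        rw [hf, pow_two]
        simp only
        rw [← Finset.card_product]
        refine Finset.card_le_card fun z hz => ?_
        simp only [Finset.mem_product, Finset.mem_filter] at hz ⊢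
        exact ⟨⟨⟨hz.1.1, hz.2.1⟩, hz.1.2.trans hz.2.2.symm⟩, hz.1.2⟩
      · intro z hz
        have hz' := (Finset.mem_filter.mp (Finset.mem_coe.mp hz)).1
        exact hU z.1 (Finset.mem_product.mp hz').1
    refine le_trans h5 (Finset.card_le_card_of_injOn (fun z => Fin.append z.1 z.2) ?_ ?_)
    · intro z hz
      simp only [Finset.coe_filter, Finset.mem_product, Set.mem_ofPred_eq,
        Fintype.mem_piFinset] at hz ⊢
      refine ⟨fun i => ?_, ?_⟩
      · refine Fin.addCases (fun j => ?_) (fun j => ?_) i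
        · rw [Fin.append_left]; exact hz.1.1 j
        · rw [Fin.append_right]; exact hz.1.2 j
      · rw [Fin.sum_univ_add]
        simp only [Fin.append_left, Fin.append_right]
        rw [hz.2]; exact add_self' _
    · intro z _ z' _ hzz
      refine Prod.ext (funext fun i => ?_) (funext fun i => ?_)
      · have := congrFun hzz (Fin.castAdd h i)
        simpa only [Fin.append_left] using this
      · have := congrFun hzz (Fin.natAdd h i)
        simpa only [Fin.append_right] using this
  calc M.card ^ (h + h) = (∑ x ∈ U, f x) ^ 2 := by rw [h1, ← pow_mul]; congr 1; omega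
    _ ≤ U.card * ∑ x ∈ U, f x ^ 2 := h3
    _ ≤ _ := Nat.mul_le_mul_left _ h4

omit [Module (ZMod 2) V] in
/-- Degenerate tuples for a fixed set of indices. -/
theorem card_degenerate {M : Finset V} {L : ℕ} (A : Finset (Fin L)) {i₀ j₀ : Fin L}
    (hi : i₀ ∈ A) (hj : j₀ ∉ A) :
    ((tup M L).filter fun v => ∑ i, v i = 0 ∧ ∑ i ∈ A, v i = 0).card ≤ M.card ^ (L - 2) := by
  classical
  have hcard : (Fintype.piFinset fun _ : {i : Fin L // i ≠ i₀ ∧ i ≠ j₀} => M).card = M.card ^ (L - 2) := by
    rw [Fintype.card_piFinset]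
    simp only [Finset.prod_const, Finset.card_univ]
    congr 1
    have hne : i₀ ≠ j₀ := fun h => hj (h ▸ hi)
    rw [Fintype.card_subtype]
    have : (univ.filter fun i : Fin L => i ≠ i₀ ∧ i ≠ j₀) = (univ.erase i₀).erase j₀ := by
      ext i; simp [and_comm]
    rw [this, Finset.card_erase_of_mem, Finset.card_erase_of_mem (Finset.mem_univ _),
      Finset.card_univ, Fintype.card_fin]
    · omega
    · simp [hne.symm]
  rw [← hcard]
  refine Finset.card_le_card_of_injOn (fun v => fun i : {i : Fin L // i ≠ i₀ ∧ i ≠ j₀} => v i.1) ?_ ?_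
  · intro v hv
    simp only [Finset.coe_filter, Set.mem_ofPred_eq, Fintype.mem_piFinset,
      Finset.mem_coe] at hv ⊢
    exact fun i => hv.1 i.1
  · intro v hv w hw hvw
    simp only [Finset.coe_filter, Set.mem_ofPred_eq, Fintype.mem_piFinset] at hv hw
    have hrest : ∀ i, i ≠ i₀ → i ≠ j₀ → v i = w i := fun i h1 h2 => congrFun hvw ⟨i, h1, h2⟩
    have hi₀ : v i₀ = w i₀ := by
      have h1 := hv.2.2
      have h2 := hw.2.2
      rw [← Finset.add_sum_erase _ _ hi] at h1 h2
      have h3 : ∑ i ∈ A.erase i₀, v i = ∑ i ∈ A.erase i₀, w i := by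
        refine Finset.sum_congr rfl fun i hi' => hrest i (Finset.ne_of_mem_erase hi') ?_
        rintro rfl
        exact hj (Finset.mem_of_mem_erase hi')
      rw [h3] at h1
      exact add_right_cancel (h1.trans h2.symm)
    have hj₀ : v j₀ = w j₀ := by
      have h1 := hv.2.1
      have h2 := hw.2.1
      rw [← Finset.add_sum_erase _ _ (Finset.mem_univ j₀)] at h1 h2
      have h3 : ∑ i ∈ univ.erase j₀, v i = ∑ i ∈ univ.erase j₀, w i := by
        refine Finset.sum_congr rfl fun i hi' => ?_
        by_cases h : i = i₀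
        · rw [h]; exact hi₀
        · exact hrest i h (Finset.ne_of_mem_erase hi')
      rw [h3] at h1
      exact add_right_cancel (h1.trans h2.symm)
    funext i
    by_cases h1 : i = i₀
    · rw [h1]; exact hi₀
    · by_cases h2 : i = j₀
      · rw [h2]; exact hj₀
      · exact hrest i h1 h2

/-- Long circuits in large sets. -/
theorem exists_circuit {M U : Finset V} {h r : ℕ} (hh : 2 ≤ h) (hUc : U.card ≤ 2 ^ r)
    (hU : ∀ v : Fin h → V, v ∈ tup M h → ∑ i, v i ∈ U)
    (hM : 2 ^ (h + h + r) < M.card ^ 2) :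
    ∃ C ⊆ M, IsCircuit C ∧ C.card = h + h := by
  classical
  have hMpos : 0 < M.card := by
    rcases Nat.eq_zero_or_pos M.card with h0 | h0
    · rw [h0] at hM; simp at hM
    · exact h0
  -- a nondegenerate tuple
  obtain ⟨v, hvM, hv0, hvA⟩ : ∃ v : Fin (h + h) → V, (∀ i, v i ∈ M) ∧ ∑ i, v i = 0 ∧
      ∀ A : Finset (Fin (h + h)), A.Nonempty → A ≠ univ → ∑ i ∈ A, v i ≠ 0 := by
    by_contra hcon
    push Not at hcon
    have hcov : ((tup M (h + h)).filter fun v => ∑ i, v i = 0) ⊆
        (univ.filter fun A : Finset (Fin (h + h)) => A.Nonempty ∧ A ≠ univ).biUnion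
          fun A => (tup M (h + h)).filter fun v => ∑ i, v i = 0 ∧ ∑ i ∈ A, v i = 0 := by
      intro v hv
      rw [Finset.mem_filter, Fintype.mem_piFinset] at hv
      obtain ⟨A, hA1, hA2, hA3⟩ := hcon v hv.1 hv.2
      rw [Finset.mem_biUnion]
      refine ⟨A, by simp [hA1, hA2], ?_⟩
      rw [Finset.mem_filter, Fintype.mem_piFinset]
      exact ⟨hv.1, hv.2, hA3⟩
    have h1 := card_zero_tuples h hU
    have h2 : ((tup M (h + h)).filter fun v => ∑ i, v i = 0).card ≤
        2 ^ (h + h) * M.card ^ (h + h - 2) := by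
      refine le_trans (Finset.card_le_card hcov) (le_trans (Finset.card_biUnion_le_card_mul _ _
        (M.card ^ (h + h - 2)) ?_) (Nat.mul_le_mul_right _ ?_))
      · intro A hA
        simp only [Finset.mem_filter, Finset.mem_univ, true_and] at hA
        obtain ⟨i₀, hi⟩ := hA.1
        obtain ⟨j₀, hj⟩ : ∃ j, j ∉ A := by
          by_contra hc
          push Not at hc
          exact hA.2 (Finset.eq_univ_iff_forall.mpr hc)
        exact card_degenerate A hi hj
      · refine le_trans (Finset.card_le_univ _) ?_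
        rw [Fintype.card_finset, Fintype.card_fin]
    have h3 : M.card ^ (h + h) ≤ 2 ^ (h + h + r) * M.card ^ (h + h - 2) := by
      calc M.card ^ (h + h) ≤ U.card * (2 ^ (h + h) * M.card ^ (h + h - 2)) :=
            le_trans h1 (Nat.mul_le_mul_left _ h2)
        _ ≤ 2 ^ r * (2 ^ (h + h) * M.card ^ (h + h - 2)) := Nat.mul_le_mul_right _ hUc
        _ = 2 ^ (h + h + r) * M.card ^ (h + h - 2) := by rw [pow_add]; ring
    have h4 : M.card ^ (h + h) = M.card ^ 2 * M.card ^ (h + h - 2) := by
      rw [← pow_add]; congr 1; omega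
    rw [h4] at h3
    have h5 := Nat.le_of_mul_le_mul_right h3 (pow_pos hMpos _)
    omega
  have hinj : Function.Injective v := by
    intro i j hij
    by_contra hne
    have h1 : ∑ l ∈ ({i, j} : Finset (Fin (h + h))), v l = 0 := by
      rw [Finset.sum_pair hne, hij]; exact add_self' _
    refine hvA {i, j} ⟨i, by simp⟩ ?_ h1
    intro hu
    have h2 := congrArg Finset.card hu
    rw [Finset.card_pair hne, Finset.card_univ, Fintype.card_fin] at h2
    omega
  refine ⟨univ.image v, ?_, ⟨?_, ?_, ?_⟩, ?_⟩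
  · intro x hx
    obtain ⟨i, _, rfl⟩ := Finset.mem_image.mp hx
    exact hvM i
  · exact ⟨v ⟨0, by omega⟩, Finset.mem_image_of_mem _ (Finset.mem_univ _)⟩
  · rw [Finset.sum_image fun i _ j _ hij => hinj hij]; exact hv0
  · intro D hD hDne hD0
    by_contra hDC
    set A := univ.filter fun i => v i ∈ D with hA
    have hDA : D = A.image v := by
      ext x
      simp only [hA, Finset.mem_image, Finset.mem_filter, Finset.mem_univ, true_and]
      constructor
      · intro hx
        obtain ⟨i, _, rfl⟩ := Finset.mem_image.mp (hD hx)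
        exact ⟨i, hx, rfl⟩
      · rintro ⟨i, hi, rfl⟩; exact hi
    have h1 : ∑ i ∈ A, v i = 0 := by
      rw [← hD0, hDA, Finset.sum_image fun i _ j _ hij => hinj hij]
    refine hvA A ?_ ?_ h1
    · rw [hDA] at hDne
      exact Finset.image_nonempty.mp hDne
    · intro hAu
      rw [hAu] at hDA
      exact hDC hDA
  · rw [Finset.card_image_of_injective _ hinj, Finset.card_univ, Fintype.card_fin]

end Pool.Agent.H41.Circ
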